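import Pool.Agent.H290Z.Widom.Pot

set_option autoImplicit false

open MeasureTheory Filter Topology Set Polynomial
open scoped ENNReal

namespace Pool.Agent.H290Z.Widom

/-- Chebyshev-type recurrence applied to a polynomial -/
noncomputable def cheb (P : ℂ[X]) (c : ℂ) : ℕ → ℂ[X]
  | 0 => 1
  | 1 => P
  | (N + 2) => P * cheb P c (N + 1) - C c * cheb P c N

lemma cheb_monic (P : ℂ[X]) (c : ℂ) (n : ℕ) (hn : 1 ≤ n) (hP : P.Monic) (hd : P.natDegree = n)
    (N : ℕ) : ((cheb P c N).Monic ∧ (cheb P c N).natDegree = N * n) ∧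
      ((cheb P c (N + 1)).Monic ∧ (cheb P c (N + 1)).natDegree = (N + 1) * n) := by
  induction N with
  | zero => simp [cheb, hP, hd]
  | succ N ih =>
    refine ⟨ih.2, ?_⟩
    obtain ⟨⟨h1, h2⟩, h3, h4⟩ := ih
    have hm : (P * cheb P c (N + 1)).Monic := hP.mul h3
    have hmd : (P * cheb P c (N + 1)).natDegree = (N + 1 + 1) * n := by
      rw [hP.natDegree_mul h3, hd, h4]; ring
    have hlt : (C c * cheb P c N).natDegree < (P * cheb P c (N + 1)).natDegree := by
      refine lt_of_le_of_lt (natDegree_C_mul_le _ _) ?_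
      rw [hmd, h2]
      nlinarith
    have he : cheb P c (N + 1 + 1) = P * cheb P c (N + 1) - C c * cheb P c N := rfl
    rw [he]
    exact ⟨hm.sub_of_left (degree_lt_degree hlt),
      by rw [natDegree_sub_eq_left_of_natDegree_lt hlt, hmd]⟩

lemma cheb_step (P : ℂ[X]) (c y α β : ℂ) (h1 : α + β = P.eval y) (h2 : α * β = c) (N : ℕ) :
    (cheb P c (N + 1)).eval y - α * (cheb P c N).eval y = β ^ (N + 1) := by
  induction N with
  | zero => simp [cheb, ← h1]
  | succ N ih =>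
    have he : cheb P c (N + 1 + 1) = P * cheb P c (N + 1) - C c * cheb P c N := rfl
    rw [he, eval_sub, eval_mul, eval_mul, eval_C, pow_succ, ← ih]
    linear_combination (-(cheb P c (N + 1)).eval y) * h1 + (cheb P c N).eval y * h2

lemma cheb_bound (P : ℂ[X]) (c y α β : ℂ) (h1 : α + β = P.eval y) (h2 : α * β = c) (R : ℝ)
    (hα : ‖α‖ ≤ R) (hβ : ‖β‖ ≤ R) (N : ℕ) : ‖(cheb P c N).eval y‖ ≤ (N + 1) * R ^ N := by
  have hR : 0 ≤ R := (norm_nonneg _).trans hα
  induction N with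
  | zero => simp [cheb]
  | succ N ih =>
    have h3 := cheb_step P c y α β h1 h2 N
    have h4 : (cheb P c (N + 1)).eval y = α * (cheb P c N).eval y + β ^ (N + 1) := by
      rw [← h3]; ring
    rw [h4]
    calc _ ≤ ‖α * (cheb P c N).eval y‖ + ‖β ^ (N + 1)‖ := norm_add_le _ _
      _ = ‖α‖ * ‖(cheb P c N).eval y‖ + ‖β‖ ^ (N + 1) := by rw [norm_mul, norm_pow]
      _ ≤ R * ((N + 1) * R ^ N) + R ^ (N + 1) := by gcongr
      _ = ((N + 1 : ℕ) + 1) * R ^ (N + 1) := by push_cast; ring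

/-- the larger modulus of the roots of `z ^ 2 - t z + r ^ 2` -/
noncomputable def rad (r t : ℝ) : ℝ := max r ((|t| + Real.sqrt (t ^ 2 - 4 * r ^ 2)) / 2)

lemma continuous_rad (r : ℝ) : Continuous (rad r) := by
  unfold rad
  fun_prop

lemma exists_roots (r t : ℝ) (hr : 0 < r) : ∃ α β : ℂ, α + β = t ∧ α * β = ((r ^ 2 : ℝ) : ℂ) ∧
    ‖α‖ ≤ rad r t ∧ ‖β‖ ≤ rad r t := by
  rcases le_total (t ^ 2) (4 * r ^ 2) with h | h
  · set s := Real.sqrt (4 * r ^ 2 - t ^ 2) with hs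
    have hs2 : s ^ 2 = 4 * r ^ 2 - t ^ 2 := Real.sq_sqrt (by linarith)
    have key : ∀ e : ℝ, e ^ 2 = s ^ 2 → ‖(⟨t / 2, e / 2⟩ : ℂ)‖ ≤ rad r t := by
      intro e he
      refine le_trans (le_of_eq ?_) (le_max_left _ _)
      rw [Complex.norm_eq_sqrt_sq_add_sq]
      simp only
      rw [show (t / 2) ^ 2 + (e / 2) ^ 2 = r ^ 2 by nlinarith, Real.sqrt_sq hr.le]
    refine ⟨⟨t / 2, s / 2⟩, ⟨t / 2, (-s) / 2⟩, ?_, ?_, key s rfl, key (-s) (by ring)⟩
    · apply Complex.ext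
      · simp
      · simp; ring
    · apply Complex.ext
      · simp only [Complex.mul_re, Complex.ofReal_re]; nlinarith
      · simp only [Complex.mul_im, Complex.ofReal_im]; ring
  · set s := Real.sqrt (t ^ 2 - 4 * r ^ 2) with hs
    have hs0 : 0 ≤ s := Real.sqrt_nonneg _
    have hs2 : s ^ 2 = t ^ 2 - 4 * r ^ 2 := Real.sq_sqrt (by linarith)
    have key : ∀ e : ℝ, |e| = s → ‖(((t + e) / 2 : ℝ) : ℂ)‖ ≤ rad r t := by
      intro e he
      refine le_trans ?_ (le_max_right _ _)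
      rw [Complex.norm_real, Real.norm_eq_abs, abs_div, abs_two, ← hs, ← he]
      gcongr
      exact abs_add_le _ _
    refine ⟨((t + s) / 2 : ℝ), ((t + -s) / 2 : ℝ), ?_, ?_, key s (abs_of_nonneg hs0),
      key (-s) (by rw [abs_neg, abs_of_nonneg hs0])⟩
    · push_cast; ring
    · rw [← Complex.ofReal_mul]
      congr 1
      nlinarith

theorem log_rad_ge (K : Set ℝ) (hKc : IsCompact K) (μ : Measure ℝ) [IsProbabilityMeasure μ]
    (hK : μ Kᶜ = 0) (L : ℝ)
    (h : ∀ z : ℂ, (∀ᵐ y ∂μ, ((y : ℝ) : ℂ) - z ≠ 0) ∧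
      Integrable (fun y : ℝ => Real.log ‖(y : ℂ) - z‖) μ ∧
      L ≤ ∫ y : ℝ, Real.log ‖(y : ℂ) - z‖ ∂μ)
    (n : ℕ) (hn : 1 ≤ n) (P : ℝ[X]) (hP : P.Monic) (hd : P.natDegree = n) (r : ℝ) (hr : 0 < r) :
    n * L ≤ ∫ y, Real.log (rad r (P.eval y)) ∂μ := by
  set Pc : ℂ[X] := P.map (algebraMap ℝ ℂ) with hPc
  have hPm : Pc.Monic := hP.map _
  have hPd : Pc.natDegree = n := by rw [hPc, hP.natDegree_map, hd]
  have hev : ∀ y : ℝ, Pc.eval (y : ℂ) = ((P.eval y : ℝ) : ℂ) := by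
    intro y
    rw [hPc, eval_map_algebraMap]
    exact aeval_ofReal P y
  have hradpos : ∀ t, 0 < rad r t := fun t => hr.trans_le (le_max_left _ _)
  have hcont : Continuous (fun y => Real.log (rad r (P.eval y))) :=
    ((continuous_rad r).comp P.continuous).log (fun y => (hradpos _).ne')
  have hint : Integrable (fun y => Real.log (rad r (P.eval y))) μ :=
    integrable_of_continuous K hKc μ hK _ hcont
  set I := ∫ y, Real.log (rad r (P.eval y)) ∂μ with hI
  have key : ∀ N : ℕ, (N : ℝ) * (n * L) ≤ Real.log (N + 1) + N * I := by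
    intro N
    obtain ⟨hm, hmd⟩ := (cheb_monic Pc ((r ^ 2 : ℝ) : ℂ) n hn hPm hPd N).1
    obtain ⟨h1, h2, h3⟩ := log_monic_ge μ L h (N * n) _ hm hmd
    have h4 : ∫ y : ℝ, Real.log ‖(cheb Pc ((r ^ 2 : ℝ) : ℂ) N).eval (y : ℂ)‖ ∂μ ≤
        ∫ y : ℝ, (Real.log (N + 1) + N * Real.log (rad r (P.eval y))) ∂μ := by
      refine integral_mono_ae h2 ((integrable_const _).add (hint.const_mul _)) ?_
      filter_upwards [h1] with y hy
      obtain ⟨α, β, e1, e2, e3, e4⟩ := exists_roots r (P.eval y) hr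
      have hb := cheb_bound Pc _ (y : ℂ) α β (by rw [e1, hev]) e2 _ e3 e4 N
      have h5 := Real.log_le_log (norm_pos_iff.2 hy) hb
      rw [Real.log_mul (by positivity) (pow_pos (hradpos _) _).ne', Real.log_pow] at h5
      exact h5
    rw [integral_add (integrable_const _) (hint.const_mul _), integral_const_mul] at h4
    simp only [integral_const, probReal_univ, smul_eq_mul, one_mul] at h4
    rw [Nat.cast_mul, mul_assoc] at h3
    rw [← hI] at h4
    exact h3.trans h4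
  by_contra hlt
  push Not at hlt
  set δ := n * L - I with hδ
  have hδ0 : 0 < δ := by linarith
  have hlim : Tendsto (fun N : ℕ => Real.log ((N : ℝ) + 1) / ((N : ℝ) + 1)) atTop (𝓝 0) := by
    have h1 : Tendsto (fun x : ℝ => Real.log x / x) atTop (𝓝 0) := by
      have := Real.tendsto_pow_log_div_mul_add_atTop 1 0 1 one_ne_zero
      simpa using this
    exact h1.comp (tendsto_atTop_add_const_right _ _ tendsto_natCast_atTop_atTop)
  have h2 : ∀ᶠ N : ℕ in atTop, Real.log ((N : ℝ) + 1) / ((N : ℝ) + 1) < δ / 2 :=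
    hlim.eventually (gt_mem_nhds (by linarith))
  obtain ⟨N, hN1, hN2⟩ := (h2.and (eventually_ge_atTop 1)).exists
  have h3 := key N
  have hN3 : (1 : ℝ) ≤ N := by exact_mod_cast hN2
  rw [div_lt_iff₀ (by positivity)] at hN1
  nlinarith

end Pool.Agent.H290Z.Widom
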