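import Mathlib

set_option autoImplicit false

open MeasureTheory Filter Topology Set
open scoped ENNReal

namespace Pool.Agent.H290Z.Widom

/-- the logarithmic kernel, as a function of the difference -/
noncomputable def kern (D : ℝ) (x y : ℝ) : ℝ≥0∞ :=
  if x = y then (⊤ : ENNReal) else ENNReal.ofReal (Real.log (D / |x - y|))

lemma kern_eq (D : ℝ) (hD : 0 < D) (x y : ℝ) :
    kern D x y = (-(ENNReal.log (ENNReal.ofReal (|x - y| / D)))).toENNReal := by
  unfold kern
  split_ifs with h
  · subst h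
    simp
  · have h1 : 0 < |x - y| := abs_pos.mpr (sub_ne_zero.mpr h)
    have h2 : 0 < |x - y| / D := div_pos h1 hD
    rw [ENNReal.log_ofReal_of_pos h2, ← EReal.coe_neg, EReal.real_coe_toENNReal, ← Real.log_inv,
      inv_div]

lemma continuous_kern (D : ℝ) (hD : 0 < D) : Continuous (fun q : ℝ × ℝ => kern D q.1 q.2) := by
  simp_rw [kern_eq D hD]
  refine EReal.continuous_toENNReal.comp ?_
  refine Continuous.neg ?_
  refine ENNReal.continuous_log.comp ?_
  refine ENNReal.continuous_ofReal.comp ?_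
  fun_prop

lemma measurable_kern (D : ℝ) (hD : 0 < D) : Measurable (fun q : ℝ × ℝ => kern D q.1 q.2) :=
  (continuous_kern D hD).measurable

lemma kern_symm (D x y : ℝ) : kern D x y = kern D y x := by
  unfold kern
  by_cases h : x = y
  · simp [h]
  · rw [if_neg h, if_neg (Ne.symm h), abs_sub_comm]

/-- mutual energy -/
noncomputable def en (D : ℝ) (μ ν : Measure ℝ) : ℝ≥0∞ := ∫⁻ x, ∫⁻ y, kern D x y ∂ν ∂μ

lemma measurable_pot (D : ℝ) (hD : 0 < D) (ν : Measure ℝ) [SFinite ν] :
    Measurable (fun x => ∫⁻ y, kern D x y ∂ν) :=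
  (measurable_kern D hD).lintegral_prod_right'

lemma en_symm (D : ℝ) (hD : 0 < D) (μ ν : Measure ℝ) [SFinite μ] [SFinite ν] :
    en D μ ν = en D ν μ := by
  unfold en
  rw [lintegral_lintegral_swap (measurable_kern D hD).aemeasurable]
  simp_rw [kern_symm D]

lemma en_add_left (D : ℝ) (μ μ' ν : Measure ℝ) : en D (μ + μ') ν = en D μ ν + en D μ' ν := by
  unfold en
  rw [lintegral_add_measure]

lemma en_smul_left (D : ℝ) (c : ℝ≥0∞) (μ ν : Measure ℝ) : en D (c • μ) ν = c * en D μ ν := by
  unfold en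
  rw [lintegral_smul_measure, smul_eq_mul]

lemma en_add_right (D : ℝ) (hD : 0 < D) (μ ν ν' : Measure ℝ) [SFinite ν] :
    en D μ (ν + ν') = en D μ ν + en D μ ν' := by
  unfold en
  simp_rw [lintegral_add_measure]
  rw [lintegral_add_left (measurable_pot D hD ν)]

lemma en_smul_right (D : ℝ) (hD : 0 < D) (c : ℝ≥0∞) (μ ν : Measure ℝ) [SFinite ν] :
    en D μ (c • ν) = c * en D μ ν := by
  unfold en
  simp_rw [lintegral_smul_measure, smul_eq_mul]
  rw [lintegral_const_mul _ (measurable_pot D hD ν)]

/-- Frostman, almost everywhere form -/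
theorem frostman_ae (K : Set ℝ) (D : ℝ) (hD : 0 < D) (μ : Measure ℝ) [IsProbabilityMeasure μ]
    (hK : μ Kᶜ = 0) (hfin : en D μ μ < ⊤)
    (hmin : ∀ ν : Measure ℝ, IsProbabilityMeasure ν → ν Kᶜ = 0 → en D μ μ ≤ en D ν ν) :
    μ {x | en D μ μ < ∫⁻ y, kern D x y ∂μ} = 0 := by
  set E := en D μ μ with hE
  set A : Set ℝ := {x | E < ∫⁻ y, kern D x y ∂μ} with hA
  have hAm : MeasurableSet A := measurableSet_lt measurable_const (measurable_pot D hD μ)
  by_contra hA0
  set μA := μ.restrict A with hμA
  set μB := μ.restrict Aᶜ with hμB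
  have hsum : μA + μB = μ := Measure.restrict_add_restrict_compl hAm
  have hdec : E = en D μA μA + en D μA μB + (en D μA μB + en D μB μB) := by
    have : E = en D (μA + μB) (μA + μB) := by rw [hsum]
    rw [this, en_add_left, en_add_right D hD, en_add_right D hD, en_symm D hD μB μA]
  have hAA : en D μA μA ≠ ⊤ := by
    refine ne_top_of_le_ne_top hfin.ne ?_
    rw [hdec]; exact le_add_right (le_add_right le_rfl)
  have hAB : en D μA μB ≠ ⊤ := by
    refine ne_top_of_le_ne_top hfin.ne ?_
    rw [hdec]; exact le_add_right (le_add_left le_rfl)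
  have hBB : en D μB μB ≠ ⊤ := by
    refine ne_top_of_le_ne_top hfin.ne ?_
    rw [hdec]; exact le_add_left (le_add_left le_rfl)
  -- strict inequality on A
  have hstrict : E * μ A < en D μA μA + en D μA μB := by
    rw [← en_add_right D hD, hsum]
    have h1 : E * μ A = ∫⁻ _ in A, E ∂μ := by
      rw [setLIntegral_const]
    rw [h1]
    unfold en
    refine lintegral_strict_mono ?_ (measurable_pot D hD μ).aemeasurable ?_ ?_
    · intro h0
      apply hA0
      have := congrArg (fun m : Measure ℝ => m univ) h0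
      simpa using this
    · rw [← h1]
      exact ENNReal.mul_ne_top hfin.ne (measure_ne_top μ A)
    · exact (ae_restrict_iff' hAm).2 (Eventually.of_forall fun x hx => hx)
  set a : ℝ := (μ A).toReal with ha
  set b : ℝ := (μ Aᶜ).toReal with hb
  have ha0 : 0 ≤ a := ENNReal.toReal_nonneg
  have hb0 : 0 ≤ b := ENNReal.toReal_nonneg
  have hab : a + b = 1 := by
    rw [ha, hb, ← ENNReal.toReal_add (measure_ne_top _ _) (measure_ne_top _ _),
      measure_add_measure_compl hAm]
    simp
  set x := (en D μA μA).toReal with hx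
  set y := (en D μA μB).toReal with hy
  set z := (en D μB μB).toReal with hz
  have hEr : E.toReal = x + y + (y + z) := by
    rw [hdec, ENNReal.toReal_add (ENNReal.add_ne_top.2 ⟨hAA, hAB⟩) (ENNReal.add_ne_top.2 ⟨hAB, hBB⟩),
      ENNReal.toReal_add hAA hAB, ENNReal.toReal_add hAB hBB]
  have hstr : E.toReal * a < x + y := by
    rw [ha, ← ENNReal.toReal_mul, hx, hy, ← ENNReal.toReal_add hAA hAB]
    exact (ENNReal.toReal_lt_toReal (ENNReal.mul_ne_top hfin.ne (measure_ne_top μ A))
      (ENNReal.add_ne_top.2 ⟨hAA, hAB⟩)).2 hstrict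
  -- perturbation
  have hpert : ∀ t : ℝ, 0 < t → t ≤ 1 →
      E.toReal ≤ (1 - t * b) ^ 2 * x + 2 * (1 - t * b) * (1 + t * a) * y + (1 + t * a) ^ 2 * z := by
    intro t ht0 ht1
    have hα : 0 ≤ 1 - t * b := by nlinarith
    have hβ : 0 ≤ 1 + t * a := by positivity
    set α := ENNReal.ofReal (1 - t * b) with hαd
    set β := ENNReal.ofReal (1 + t * a) with hβd
    have hαt : α ≠ ⊤ := ENNReal.ofReal_ne_top
    have hβt : β ≠ ⊤ := ENNReal.ofReal_ne_top
    set ν : Measure ℝ := α • μA + β • μB with hν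
    have hprob : IsProbabilityMeasure ν := by
      constructor
      have h1 : ν univ = α * μ A + β * μ Aᶜ := by
        simp [hν, hμA, hμB]
      rw [h1, ← ENNReal.ofReal_toReal (measure_ne_top μ A),
        ← ENNReal.ofReal_toReal (measure_ne_top μ Aᶜ), ← ha, ← hb, hαd, hβd,
        ← ENNReal.ofReal_mul hα, ← ENNReal.ofReal_mul hβ,
        ← ENNReal.ofReal_add (mul_nonneg hα ha0) (mul_nonneg hβ hb0)]
      have : (1 - t * b) * a + (1 + t * a) * b = 1 := by linear_combination hab
      rw [this]; simp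
    have hνK : ν Kᶜ = 0 := by
      have h1 : μA Kᶜ = 0 := le_antisymm ((Measure.restrict_le_self (s := A) Kᶜ).trans hK.le) (by simp)
      have h2 : μB Kᶜ = 0 := le_antisymm ((Measure.restrict_le_self (s := Aᶜ) Kᶜ).trans hK.le) (by simp)
      simp [hν, h1, h2]
    have hle := hmin ν hprob hνK
    have hcalc : en D ν ν = α * (α * en D μA μA + β * en D μA μB)
        + β * (α * en D μA μB + β * en D μB μB) := by
      rw [hν, en_add_left, en_smul_left, en_smul_left, en_add_right D hD, en_add_right D hD,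
        en_smul_right D hD, en_smul_right D hD, en_smul_right D hD, en_smul_right D hD,
        en_symm D hD μB μA]
    have hne : en D ν ν ≠ ⊤ := by
      rw [hcalc]
      finiteness
    have h2 := (ENNReal.toReal_le_toReal hfin.ne hne).2 hle
    have h3 : (en D ν ν).toReal = (1 - t * b) * ((1 - t * b) * x + (1 + t * a) * y)
        + (1 + t * a) * ((1 - t * b) * y + (1 + t * a) * z) := by
      rw [hcalc, ENNReal.toReal_add (by finiteness) (by finiteness), ENNReal.toReal_mul,
        ENNReal.toReal_mul, ENNReal.toReal_add (by finiteness) (by finiteness),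
        ENNReal.toReal_add (by finiteness) (by finiteness), ENNReal.toReal_mul, ENNReal.toReal_mul,
        ENNReal.toReal_mul, ENNReal.toReal_mul, hαd, hβd, ENNReal.toReal_ofReal hα,
        ENNReal.toReal_ofReal hβ]
    rw [h3] at h2
    nlinarith
  set δ := x + y - E.toReal * a with hδ
  have hδ0 : 0 < δ := by linarith
  set Q := |b ^ 2 * x - 2 * a * b * y + a ^ 2 * z| + 1 with hQ
  have hQ0 : 0 < Q := by positivity
  set t := min 1 (δ / Q) with ht
  have ht0 : 0 < t := lt_min one_pos (div_pos hδ0 hQ0)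
  have ht1 : t ≤ 1 := min_le_left _ _
  have ht2 : t * Q ≤ δ := by
    have : t ≤ δ / Q := min_le_right _ _
    rwa [le_div_iff₀ hQ0] at this
  have h := hpert t ht0 ht1
  have hb' : b = 1 - a := by linarith
  have hexp : (1 - t * b) ^ 2 * x + 2 * (1 - t * b) * (1 + t * a) * y + (1 + t * a) ^ 2 * z
      = E.toReal + t * (-2 * δ + t * (b ^ 2 * x - 2 * a * b * y + a ^ 2 * z)) := by
    rw [hδ, hEr, hb']; ring
  rw [hexp] at h
  have h4 : 0 ≤ -2 * δ + t * (b ^ 2 * x - 2 * a * b * y + a ^ 2 * z) := by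
    by_contra hneg
    push Not at hneg
    nlinarith
  have h5 : b ^ 2 * x - 2 * a * b * y + a ^ 2 * z ≤ Q := by
    have := le_abs_self (b ^ 2 * x - 2 * a * b * y + a ^ 2 * z)
    linarith
  nlinarith

lemma isClosed_pot_le (D : ℝ) (hD : 0 < D) (μ : Measure ℝ) (E : ℝ≥0∞) :
    IsClosed {x | ∫⁻ y, kern D x y ∂μ ≤ E} := by
  refine isClosed_of_closure_subset ?_
  intro x hx
  obtain ⟨u, hu, hlim⟩ := mem_closure_iff_seq_limit.1 hx
  have h1 : ∀ y, liminf (fun n => kern D (u n) y) atTop = kern D x y := by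
    intro y
    have : Tendsto (fun n => kern D (u n) y) atTop (𝓝 (kern D x y)) :=
      ((continuous_kern D hD).tendsto (x, y)).comp (hlim.prodMk_nhds tendsto_const_nhds)
    exact this.liminf_eq
  have h2 := lintegral_liminf_le (μ := μ) (u := atTop) (f := fun n y => kern D (u n) y)
    (fun n => (measurable_kern D hD).comp (measurable_const.prodMk measurable_id))
  simp_rw [h1] at h2
  refine h2.trans ?_
  refine liminf_le_of_frequently_le' (Frequently.of_forall fun n => hu n)

end Pool.Agent.H290Z.Widom
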