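import Pool.Agent.H290Z.Widom.Cheb

set_option autoImplicit false

open MeasureTheory Filter Topology Set
open scoped ENNReal

namespace Pool.Agent.H290Z.Widom

/-- Green function of the unit interval at `1 / u` -/
noncomputable def psi (u : ℝ) : ℝ := Real.log (max 1 ((1 + Real.sqrt (1 - u ^ 2)) / u))

lemma psi_nonneg (u : ℝ) : 0 ≤ psi u := Real.log_nonneg (le_max_left _ _)

lemma measurable_psi : Measurable psi := by
  unfold psi
  fun_prop

lemma psi_zero : psi 0 = 0 := by simp [psi]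

lemma psi_of_one_le (u : ℝ) (hu : 1 ≤ u) : psi u = 0 := by
  unfold psi
  rw [Real.sqrt_eq_zero_of_nonpos (by nlinarith), add_zero, max_eq_left, Real.log_one]
  rw [div_le_one (by linarith)]
  exact hu

lemma psi_of_le_one (u : ℝ) (h0 : 0 < u) (hu : u ≤ 1) :
    psi u = Real.log (1 + Real.sqrt (1 - u ^ 2)) - Real.log u := by
  unfold psi
  have hs := Real.sqrt_nonneg (1 - u ^ 2)
  rw [max_eq_right, Real.log_div (by linarith) h0.ne']
  rw [le_div_iff₀ h0]
  linarith

lemma log_rad (r t : ℝ) (hr : 0 < r) : Real.log (rad r t) = Real.log r + psi (2 / |t| * r) := by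
  by_cases ht : t = 0
  · subst ht
    unfold rad
    rw [Real.sqrt_eq_zero_of_nonpos (by nlinarith)]
    simp [psi_zero, hr.le]
  · have ht0 : 0 < |t| := abs_pos.2 ht
    unfold psi rad
    rw [← Real.log_mul hr.ne' (lt_of_lt_of_le one_pos (le_max_left _ _)).ne',
      mul_max_of_nonneg _ _ hr.le, mul_one]
    congr 2
    have h1 : Real.sqrt (t ^ 2 - 4 * r ^ 2) = |t| * Real.sqrt (1 - (2 / |t| * r) ^ 2) := by
      rw [← Real.sqrt_sq ht0.le, ← Real.sqrt_mul (sq_nonneg _), Real.sqrt_sq ht0.le]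
      congr 1
      rw [← sq_abs t]
      field_simp
      ring
    rw [h1]
    field_simp

lemma beta_real (a b : ℝ) (ha : 0 < a) (hb : 0 < b) :
    ∫ x in Ioc (0 : ℝ) 1, x ^ (a - 1) * (1 - x) ^ (b - 1) =
      Real.Gamma a * Real.Gamma b / Real.Gamma (a + b) := by
  have h := ProbabilityTheory.beta_eq_betaIntegralReal a b ha hb
  unfold ProbabilityTheory.beta at h
  rw [h, Complex.betaIntegral, intervalIntegral.integral_of_le (by norm_num)]
  have : ∫ x in Ioc (0 : ℝ) 1, (x : ℂ) ^ ((a : ℂ) - 1) * (1 - (x : ℂ)) ^ ((b : ℂ) - 1) =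
      ∫ x in Ioc (0 : ℝ) 1, ((x ^ (a - 1) * (1 - x) ^ (b - 1) : ℝ) : ℂ) := by
    refine setIntegral_congr_fun measurableSet_Ioc fun x hx => ?_
    have h1 : 0 ≤ x := hx.1.le
    have h2 : 0 ≤ 1 - x := by linarith [hx.2]
    rw [Complex.ofReal_mul, Complex.ofReal_cpow h1, Complex.ofReal_cpow h2]
    push_cast
    rfl
  rw [this, integral_complex_ofReal, Complex.ofReal_re]

lemma int_w (p : ℝ) (hp : 0 < p) :
    ∫ u in Ioc (0 : ℝ) 1, u ^ (p - 1) * (1 / Real.sqrt (1 - u ^ 2)) =
      Real.Gamma (p / 2) * Real.sqrt Real.pi / Real.Gamma ((p + 1) / 2) / 2 := by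
  have h1 := beta_real (p / 2) (1 / 2) (by positivity) (by norm_num)
  rw [Real.Gamma_one_half_eq, show p / 2 + 1 / 2 = (p + 1) / 2 by ring] at h1
  rw [← h1]
  set g : ℝ → ℝ := (Ioc (0 : ℝ) 1).indicator
    (fun x => x ^ (p / 2 - 1) * (1 - x) ^ ((1 : ℝ) / 2 - 1)) with hg
  have h2 := integral_comp_rpow_Ioi_of_pos (g := g) (p := 2) two_pos
  have h3 : ∫ y in Ioi (0 : ℝ), g y =
      ∫ x in Ioc (0 : ℝ) 1, x ^ (p / 2 - 1) * (1 - x) ^ ((1 : ℝ) / 2 - 1) := by
    rw [hg, setIntegral_indicator measurableSet_Ioc, inter_eq_right.2 Ioc_subset_Ioi_self]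
  have h4 : ∫ x in Ioi (0 : ℝ), (2 * x ^ ((2 : ℝ) - 1)) • g (x ^ (2 : ℝ)) =
      ∫ x in Ioi (0 : ℝ), (Ioc (0 : ℝ) 1).indicator
        (fun u => 2 * (u ^ (p - 1) * (1 / Real.sqrt (1 - u ^ 2)))) x := by
    refine setIntegral_congr_fun measurableSet_Ioi fun x hx => ?_
    have hx0 : 0 < x := hx
    simp only [smul_eq_mul]
    rw [show (2 : ℝ) - 1 = 1 by norm_num, Real.rpow_one, Real.rpow_two]
    by_cases hx1 : x ≤ 1
    · have m1 : x ^ 2 ∈ Ioc (0 : ℝ) 1 := ⟨by positivity, by nlinarith⟩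
      rw [hg, indicator_of_mem m1, indicator_of_mem (show x ∈ Ioc (0 : ℝ) 1 from ⟨hx0, hx1⟩)]
      have e1 : (x ^ 2) ^ (p / 2 - 1) = x ^ (p - 2) := by
        rw [← Real.rpow_two, ← Real.rpow_mul hx0.le]
        congr 1; ring
      have e2 : x ^ (p - 1) = x * x ^ (p - 2) := by
        rw [show p - 1 = 1 + (p - 2) by ring, Real.rpow_add hx0, Real.rpow_one]
      have e3 : (1 - x ^ 2) ^ ((1 : ℝ) / 2 - 1) = 1 / Real.sqrt (1 - x ^ 2) := by
        rw [Real.sqrt_eq_rpow, show (1 : ℝ) / 2 - 1 = -(1 / 2) by norm_num,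
          Real.rpow_neg (by linarith [m1.2]), one_div (_ ^ _)]
      rw [e1, e2, e3]
      ring
    · push Not at hx1
      have m1 : x ^ 2 ∉ Ioc (0 : ℝ) 1 := fun h => by nlinarith [h.2]
      rw [hg, indicator_of_notMem m1,
        indicator_of_notMem (show x ∉ Ioc (0 : ℝ) 1 from fun h => by linarith [h.2])]
      simp
  rw [h4, setIntegral_indicator measurableSet_Ioc, inter_eq_right.2 Ioc_subset_Ioi_self,
    integral_const_mul, h3] at h2
  linarith

lemma continuous_rpow_mul_log (p : ℝ) (hp : 1 ≤ p) :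
    ContinuousOn (fun u : ℝ => u ^ p * Real.log u) (Ici 0) := by
  have h1 : Continuous (fun u : ℝ => u ^ (p - 1) * (u * Real.log u)) :=
    (Real.continuous_rpow_const (by linarith)).mul Real.continuous_mul_log
  refine h1.continuousOn.congr fun u hu => ?_
  rcases eq_or_lt_of_le (show 0 ≤ u from hu) with h | h
  · subst h; simp
  · simp only
    rw [← mul_assoc, ← Real.rpow_add_one h.ne', sub_add_cancel]

lemma int_psi_Ioc (p : ℝ) (hp : 1 ≤ p) :
    IntegrableOn (fun u : ℝ => u ^ (p - 1) * psi u) (Ioc 0 1) ∧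
    ∫ u in Ioc (0 : ℝ) 1, u ^ (p - 1) * psi u =
      Real.Gamma (p / 2) * Real.sqrt Real.pi / Real.Gamma ((p + 1) / 2) / 2 / p := by
  have hp0 : 0 < p := by linarith
  have hcp : Continuous (fun u : ℝ => u ^ (p - 1)) := Real.continuous_rpow_const (by linarith)
  have hl : Continuous (fun u : ℝ => Real.log (1 + Real.sqrt (1 - u ^ 2))) := by
    refine Continuous.log (by fun_prop) fun u => ?_
    have := Real.sqrt_nonneg (1 - u ^ 2)
    linarith
  set f : ℝ → ℝ := fun u => u ^ (p - 1) * (Real.log (1 + Real.sqrt (1 - u ^ 2)) - Real.log u)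
    with hf
  set w : ℝ → ℝ := fun u => u ^ (p - 1) * (1 / Real.sqrt (1 - u ^ 2)) with hw
  have hfi : IntervalIntegrable f volume 0 1 :=
    ((hl.intervalIntegrable 0 1).sub intervalIntegral.intervalIntegrable_log').continuousOn_mul
      hcp.continuousOn
  have hwi : IntervalIntegrable w volume 0 1 := by
    refine IntervalIntegrable.continuousOn_mul ?_ hcp.continuousOn
    rw [intervalIntegrable_iff_integrableOn_Ioc_of_le zero_le_one]
    refine intervalIntegral.integrableOn_deriv_of_nonneg (g := Real.arcsin)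
      Real.continuous_arcsin.continuousOn (fun x hx => ?_) (fun x _ => by positivity)
    exact Real.hasDerivAt_arcsin (by linarith [hx.1]) hx.2.ne
  have hcongr : EqOn (fun u : ℝ => u ^ (p - 1) * psi u) f (Ioc 0 1) := by
    intro u hu
    simp only [hf]
    rw [psi_of_le_one u hu.1 hu.2]
  refine ⟨?_, ?_⟩
  · rw [intervalIntegrable_iff_integrableOn_Ioc_of_le zero_le_one] at hfi
    exact hfi.congr_fun hcongr.symm measurableSet_Ioc
  rw [setIntegral_congr_fun measurableSet_Ioc hcongr, ← int_w p hp0,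
    ← intervalIntegral.integral_of_le zero_le_one, ← intervalIntegral.integral_of_le zero_le_one]
  have hF := intervalIntegral.integral_eq_sub_of_hasDerivAt_of_le (a := 0) (b := 1)
    (f := fun u : ℝ => u ^ p * Real.log (1 + Real.sqrt (1 - u ^ 2)) - u ^ p * Real.log u)
    (f' := fun u => p * f u - w u) zero_le_one ?_ ?_ ((hfi.const_mul p).sub hwi)
  · rw [intervalIntegral.integral_sub (hfi.const_mul p) hwi, intervalIntegral.integral_const_mul]
      at hF
    simp only [Real.one_rpow, one_pow, sub_self, Real.sqrt_zero, add_zero, Real.log_one, mul_zero,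
      Real.zero_rpow hp0.ne', zero_mul] at hF
    rw [eq_div_iff hp0.ne']
    linarith
  · refine ContinuousOn.sub ?_ ((continuous_rpow_mul_log p hp).mono Icc_subset_Ici_self)
    exact ((Real.continuous_rpow_const hp0.le).mul hl).continuousOn
  · intro u hu
    have hu0 := hu.1
    have hu1 := hu.2
    have h1 : 0 < 1 - u ^ 2 := by nlinarith
    have hs : 0 < Real.sqrt (1 - u ^ 2) := Real.sqrt_pos.2 h1
    have hs2 : Real.sqrt (1 - u ^ 2) ^ 2 = 1 - u ^ 2 := Real.sq_sqrt h1.le
    have d1 : HasDerivAt (fun u : ℝ => u ^ p) (p * u ^ (p - 1)) u :=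
      Real.hasDerivAt_rpow_const (Or.inl hu0.ne')
    have d2 : HasDerivAt (fun u : ℝ => 1 - u ^ 2) (-(2 * u)) u := by
      simpa using (hasDerivAt_pow 2 u).const_sub 1
    have d3 := (d2.sqrt h1.ne').const_add 1
    have d4 := d3.log (by linarith)
    have d5 := Real.hasDerivAt_log hu0.ne'
    have d6 := (d1.mul d4).sub (d1.mul d5)
    refine HasDerivAt.congr_deriv d6 ?_
    simp only [hf, hw]
    have e : u ^ p = u ^ (p - 1) * u := by rw [← Real.rpow_add_one hu0.ne', sub_add_cancel]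
    rw [e]
    set s := Real.sqrt (1 - u ^ 2) with hsd
    have hu2 : u ^ 2 = 1 - s ^ 2 := by linarith
    field_simp
    rw [hu2]
    ring

lemma int_psi (p : ℝ) (hp : 1 ≤ p) :
    IntegrableOn (fun u : ℝ => u ^ (p - 1) * psi u) (Ioi 0) ∧
    ∫ u in Ioi (0 : ℝ), u ^ (p - 1) * psi u =
      Real.Gamma (p / 2) * Real.sqrt Real.pi / Real.Gamma ((p + 1) / 2) / 2 / p := by
  obtain ⟨h1, h2⟩ := int_psi_Ioc p hp
  have hz : ∀ x ∈ Ioi (0 : ℝ) \ Ioc 0 1, x ^ (p - 1) * psi x = 0 := by
    intro x hx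
    have : 1 ≤ x := by
      by_contra h
      exact hx.2 ⟨hx.1, by linarith⟩
    rw [psi_of_one_le x this, mul_zero]
  refine ⟨h1.of_forall_sdiff_eq_zero measurableSet_Ioi hz, ?_⟩
  rw [← h2]
  exact setIntegral_eq_of_subset_of_forall_sdiff_eq_zero measurableSet_Ioi Ioc_subset_Ioi_self hz

lemma int_log (p C : ℝ) (hp : 1 ≤ p) (hC : 0 < C) :
    ∫ r in Ioc (0 : ℝ) C, r ^ (p - 1) * (Real.log C - Real.log r) = C ^ p / p ^ 2 := by
  have hp0 : 0 < p := by linarith
  have hcont : ContinuousOn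
      (fun r : ℝ => (r ^ p * Real.log C - r ^ p * Real.log r) / p + r ^ p / p ^ 2) (Icc 0 C) := by
    have h1 := (Real.continuous_rpow_const hp0.le).continuousOn (s := Icc 0 C)
    exact (((h1.mul continuousOn_const).sub
      ((continuous_rpow_mul_log p hp).mono Icc_subset_Ici_self)).div_const _).add (h1.div_const _)
  have hder : ∀ r ∈ Ioo (0 : ℝ) C, HasDerivAt
      (fun r : ℝ => (r ^ p * Real.log C - r ^ p * Real.log r) / p + r ^ p / p ^ 2)
      (r ^ (p - 1) * (Real.log C - Real.log r)) r := by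
    intro r hr
    have d1 : HasDerivAt (fun u : ℝ => u ^ p) (p * r ^ (p - 1)) r :=
      Real.hasDerivAt_rpow_const (Or.inl hr.1.ne')
    have d5 := Real.hasDerivAt_log hr.1.ne'
    have d6 := (((d1.mul_const (Real.log C)).sub (d1.mul d5)).div_const p).add
      (d1.div_const (p ^ 2))
    refine HasDerivAt.congr_deriv d6 ?_
    have e : r ^ p = r ^ (p - 1) * r := by rw [← Real.rpow_add_one hr.1.ne', sub_add_cancel]
    rw [e]
    have := hr.1.ne'
    field_simp
    ring
  have hint : IntervalIntegrable (fun r : ℝ => r ^ (p - 1) * (Real.log C - Real.log r))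
      volume 0 C := by
    rw [intervalIntegrable_iff_integrableOn_Ioc_of_le hC.le]
    refine intervalIntegral.integrableOn_deriv_of_nonneg hcont hder fun r hr => ?_
    have := Real.log_le_log hr.1 hr.2.le
    exact mul_nonneg (Real.rpow_nonneg hr.1.le _) (by linarith)
  rw [← intervalIntegral.integral_of_le hC.le,
    intervalIntegral.integral_eq_sub_of_hasDerivAt_of_le hC.le hcont hder hint]
  simp [Real.zero_rpow hp0.ne']

end Pool.Agent.H290Z.Widom
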