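import Pool.Agent.H290Z.Widom.Integ

set_option autoImplicit false

open MeasureTheory Filter Topology Set Polynomial
open scoped ENNReal

namespace Pool.Agent.H290Z.Widom

lemma int_scaled (p t : ℝ) (hp : 1 ≤ p) :
    IntegrableOn (fun r : ℝ => r ^ (p - 1) * psi (2 / |t| * r)) (Ioi 0) ∧
    ∫ r in Ioi (0 : ℝ), r ^ (p - 1) * psi (2 / |t| * r) =
      (|t| / 2) ^ p * ∫ u in Ioi (0 : ℝ), u ^ (p - 1) * psi u := by
  have hp0 : 0 < p := by linarith
  by_cases ht : t = 0
  · subst ht
    simp [psi_zero, Real.zero_rpow hp0.ne']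
  have ht0 : 0 < |t| := abs_pos.2 ht
  set b := 2 / |t| with hb
  have hb0 : 0 < b := by positivity
  set g : ℝ → ℝ := fun u => u ^ (p - 1) * psi u with hg
  have hcongr : EqOn (fun r : ℝ => r ^ (p - 1) * psi (b * r))
      (fun r => (b ^ (p - 1))⁻¹ * g (b * r)) (Ioi 0) := by
    intro r hr
    have hr0 : 0 < r := hr
    simp only [hg]
    rw [Real.mul_rpow hb0.le hr0.le]
    have : b ^ (p - 1) ≠ 0 := (Real.rpow_pos_of_pos hb0 _).ne'
    field_simp
  have hgi : IntegrableOn (fun r => g (b * r)) (Ioi 0) := by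
    rw [integrableOn_Ioi_comp_mul_left_iff g 0 hb0, mul_zero]
    exact (int_psi p hp).1
  refine ⟨IntegrableOn.congr_fun (hgi.const_mul _) hcongr.symm measurableSet_Ioi, ?_⟩
  rw [setIntegral_congr_fun measurableSet_Ioi hcongr, integral_const_mul,
    integral_comp_mul_left_Ioi g 0 hb0, mul_zero, smul_eq_mul, ← mul_assoc]
  congr 1
  have : |t| / 2 = b⁻¹ := by rw [hb, inv_div]
  rw [this, Real.inv_rpow hb0.le, ← mul_inv, ← Real.rpow_add_one hb0.ne', sub_add_cancel]

theorem moment_ge (K : Set ℝ) (hKc : IsCompact K) (μ : Measure ℝ) [IsProbabilityMeasure μ]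
    (hK : μ Kᶜ = 0) (f : ℝ → ℝ) (hf : Continuous f) (C : ℝ) (hC : 0 < C)
    (h : ∀ r : ℝ, 0 < r → Real.log C ≤ ∫ y, Real.log (rad r (f y)) ∂μ) (p : ℝ) (hp : 1 ≤ p) :
    C ^ p / p ^ 2 ≤ (∫ y, (|f y| / 2) ^ p ∂μ) * ∫ u in Ioi (0 : ℝ), u ^ (p - 1) * psi u := by
  have hp0 : 0 < p := by linarith
  set A := ∫ u in Ioi (0 : ℝ), u ^ (p - 1) * psi u with hA
  set F : ℝ → ℝ → ℝ := fun y r => r ^ (p - 1) * psi (2 / |f y| * r) with hF
  have hFm : Measurable (Function.uncurry F) := by
    have h1 : Measurable f := hf.measurable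
    have h2 := measurable_psi
    change Measurable (fun q : ℝ × ℝ => q.2 ^ (p - 1) * psi (2 / |f q.1| * q.2))
    fun_prop
  have hF0 : ∀ y r, 0 < r → 0 ≤ F y r := fun y r hr =>
    mul_nonneg (Real.rpow_nonneg hr.le _) (psi_nonneg _)
  have hmom : Integrable (fun y => (|f y| / 2) ^ p) μ :=
    integrable_of_continuous K hKc μ hK _
      ((Real.continuous_rpow_const hp0.le).comp (by fun_prop))
  have hFi : Integrable (Function.uncurry F) (μ.prod (volume.restrict (Ioi (0 : ℝ)))) := by
    rw [integrable_prod_iff hFm.aestronglyMeasurable]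
    refine ⟨Eventually.of_forall fun y => (int_scaled p (f y) hp).1, ?_⟩
    refine (hmom.mul_const A).congr (Eventually.of_forall fun y => ?_)
    simp only [Function.uncurry_apply_pair]
    rw [← (int_scaled p (f y) hp).2]
    refine setIntegral_congr_fun measurableSet_Ioi fun r hr => ?_
    rw [Real.norm_eq_abs, abs_of_nonneg (hF0 y r hr)]
  have hswap := integral_integral_swap hFi
  have hL : ∫ y, ∫ r in Ioi (0 : ℝ), F y r ∂volume ∂μ = (∫ y, (|f y| / 2) ^ p ∂μ) * A := by
    rw [← integral_mul_const]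
    refine integral_congr_ae (Eventually.of_forall fun y => ?_)
    exact (int_scaled p (f y) hp).2
  have hH : IntegrableOn (fun r => ∫ y, F y r ∂μ) (Ioi (0 : ℝ)) := hFi.integral_prod_right
  rw [← hL, hswap, ← int_log p C hp hC]
  calc ∫ r in Ioc (0 : ℝ) C, r ^ (p - 1) * (Real.log C - Real.log r)
      ≤ ∫ r in Ioc (0 : ℝ) C, ∫ y, F y r ∂μ := by
        refine integral_mono_of_nonneg ?_ (hH.mono_set Ioc_subset_Ioi_self) ?_
        · refine ae_restrict_of_forall_mem measurableSet_Ioc fun r hr => ?_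
          have := Real.log_le_log hr.1 hr.2
          exact mul_nonneg (Real.rpow_nonneg hr.1.le _) (by linarith)
        · refine ae_restrict_of_forall_mem measurableSet_Ioc fun r hr => ?_
          have hr0 : 0 < r := hr.1
          simp only [hF]
          rw [integral_const_mul]
          refine mul_le_mul_of_nonneg_left ?_ (Real.rpow_nonneg hr0.le _)
          have hint : Integrable (fun y => Real.log (rad r (f y))) μ :=
            integrable_of_continuous K hKc μ hK _
              (((continuous_rad r).comp hf).log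
                (fun y => (hr0.trans_le (le_max_left _ _)).ne'))
          have h1 : ∫ y, psi (2 / |f y| * r) ∂μ =
              ∫ y, (Real.log (rad r (f y)) - Real.log r) ∂μ := by
            refine integral_congr_ae (Eventually.of_forall fun y => ?_)
            simp only
            rw [log_rad r (f y) hr0]
            ring
          rw [h1, integral_sub hint (integrable_const _)]
          simp only [integral_const, probReal_univ, smul_eq_mul, one_mul]
          linarith [h r hr0]
    _ ≤ ∫ r in Ioi (0 : ℝ), ∫ y, F y r ∂μ := by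
        refine setIntegral_mono_set hH ?_ Ioc_subset_Ioi_self.eventuallyLE
        refine ae_restrict_of_forall_mem measurableSet_Ioi fun r hr => ?_
        exact integral_nonneg fun y => hF0 y r hr

theorem widom (K : Set ℝ) (hKc : IsCompact K) (D : ℝ) (hD : 0 < D) (μ : Measure ℝ)
    [IsProbabilityMeasure μ] (hK : μ Kᶜ = 0) (hfin : en D μ μ < ⊤)
    (hmin : ∀ ν : Measure ℝ, IsProbabilityMeasure ν → ν Kᶜ = 0 → en D μ μ ≤ en D ν ν)
    (p : ℝ) (hp : 1 ≤ p) (n : ℕ) (hn : 1 ≤ n) (P : ℝ[X]) (hP : P.Monic) (hd : P.natDegree = n) :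
    (2 : ℝ) ^ p / Real.sqrt Real.pi * Real.Gamma ((p + 1) / 2) / Real.Gamma (p / 2 + 1)
        * (D * Real.exp (-(en D μ μ).toReal)) ^ ((n : ℝ) * p) ≤ ∫ x, |P.eval x| ^ p ∂μ := by
  have hp0 : 0 < p := by linarith
  set c := D * Real.exp (-(en D μ μ).toReal) with hc
  have hc0 : 0 < c := by positivity
  have hlog : Real.log (c ^ (n : ℝ)) = n * (Real.log D - (en D μ μ).toReal) := by
    rw [Real.log_rpow hc0, hc, Real.log_mul hD.ne' (Real.exp_pos _).ne', Real.log_exp]
    ring
  have h1 := moment_ge K hKc μ hK (fun y => P.eval y) P.continuous (c ^ (n : ℝ))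
    (Real.rpow_pos_of_pos hc0 _) (fun r hr => by
      rw [hlog]
      exact log_rad_ge K hKc μ hK _ (log_dist_ge K hKc D hD μ hK hfin hmin) n hn P hP hd r hr) p hp
  rw [(int_psi p hp).2, ← Real.rpow_mul hc0.le] at h1
  have h2 : ∫ y, (|P.eval y| / 2) ^ p ∂μ = (∫ y, |P.eval y| ^ p ∂μ) / 2 ^ p := by
    rw [← integral_div]
    refine integral_congr_ae (Eventually.of_forall fun y => ?_)
    simp only
    rw [Real.div_rpow (abs_nonneg _) zero_le_two]
  rw [h2] at h1
  rw [Real.Gamma_add_one (by positivity)]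
  have g1 : 0 < Real.Gamma (p / 2) := Real.Gamma_pos_of_pos (by positivity)
  have g2 : 0 < Real.Gamma ((p + 1) / 2) := Real.Gamma_pos_of_pos (by positivity)
  have g3 : 0 < Real.sqrt Real.pi := Real.sqrt_pos.2 Real.pi_pos
  have g4 : (0 : ℝ) < 2 ^ p := Real.rpow_pos_of_pos two_pos _
  set I := ∫ y, |P.eval y| ^ p ∂μ
  set W := c ^ ((n : ℝ) * p)
  set k := 2 ^ p / Real.sqrt Real.pi * Real.Gamma ((p + 1) / 2) / (p / 2 * Real.Gamma (p / 2))
    with hk
  have hk0 : 0 < k * p ^ 2 := by positivity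
  have h3 := mul_le_mul_of_nonneg_left h1 hk0.le
  have e1 : k * p ^ 2 * (W / p ^ 2) = k * W := by field_simp
  have e2 : k * p ^ 2 * (I / 2 ^ p *
      (Real.Gamma (p / 2) * Real.sqrt Real.pi / Real.Gamma ((p + 1) / 2) / 2 / p)) = I := by
    rw [hk]; field_simp
  rw [e1, e2] at h3
  exact h3

end Pool.Agent.H290Z.Widom
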