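import Pool.Agent.H290Z.Widom.Frost

set_option autoImplicit false

open MeasureTheory Filter Topology Set
open scoped ENNReal

namespace Pool.Agent.H290Z.Widom

lemma kern_convex (D : ℝ) (hD : 0 < D) (a b s y : ℝ) (hab : a < b) (hs0 : 0 < s) (hs1 : s < 1)
    (hy : y ≤ a ∨ b ≤ y) :
    kern D ((1 - s) * a + s * b) y ≤
      ENNReal.ofReal (1 - s) * kern D a y + ENNReal.ofReal s * kern D b y := by
  by_cases hya : a = y
  · have : kern D a y = ⊤ := by simp [kern, hya]
    rw [this, ENNReal.mul_top (by simpa using hs1)]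
    simp
  by_cases hyb : b = y
  · have : kern D b y = ⊤ := by simp [kern, hyb]
    rw [this, ENNReal.mul_top (by simpa using hs0)]
    simp
  have ha0 : 0 < |a - y| := abs_pos.mpr (sub_ne_zero.mpr hya)
  have hb0 : 0 < |b - y| := abs_pos.mpr (sub_ne_zero.mpr hyb)
  have hx : |(1 - s) * a + s * b - y| = (1 - s) * |a - y| + s * |b - y| := by
    rcases hy with hy | hy
    · rw [abs_of_nonneg (by nlinarith), abs_of_nonneg (by linarith), abs_of_nonneg (by linarith)]
      ring
    · rw [abs_of_nonpos (by nlinarith), abs_of_nonpos (by linarith), abs_of_nonpos (by linarith)]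
      ring
  have hs' : 0 < 1 - s := by linarith
  have hx0 : 0 < |(1 - s) * a + s * b - y| := by rw [hx]; positivity
  have hne : (1 - s) * a + s * b ≠ y := sub_ne_zero.mp (abs_pos.mp hx0)
  unfold kern
  rw [if_neg hne, if_neg hya, if_neg hyb, ← ENNReal.ofReal_mul hs'.le, ← ENNReal.ofReal_mul hs0.le]
  refine le_trans (ENNReal.ofReal_le_ofReal ?_) ENNReal.ofReal_add_le
  rw [Real.log_div hD.ne' hx0.ne', Real.log_div hD.ne' ha0.ne', Real.log_div hD.ne' hb0.ne', hx]
  have hc := strictConcaveOn_log_Ioi.concaveOn.2 (mem_Ioi.2 ha0) (mem_Ioi.2 hb0) hs'.le hs0.le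
    (by ring)
  simp only [smul_eq_mul] at hc
  nlinarith

lemma pot_le_between (D : ℝ) (hD : 0 < D) (μ : Measure ℝ) (E : ℝ≥0∞) (S : Set ℝ)
    (hS : IsCompact S) (hSμ : μ Sᶜ = 0) (hSE : ∀ x ∈ S, ∫⁻ y, kern D x y ∂μ ≤ E)
    (x a b : ℝ) (ha : a ∈ S) (hb : b ∈ S) (hax : a ≤ x) (hxb : x ≤ b) :
    ∫⁻ y, kern D x y ∂μ ≤ E := by
  by_cases hx : x ∈ S
  · exact hSE x hx
  obtain ⟨a', ha'⟩ := (hS.inter_right (isClosed_Iic (a := x))).exists_isGreatest ⟨a, ha, hax⟩
  obtain ⟨b', hb'⟩ := (hS.inter_right (isClosed_Ici (a := x))).exists_isLeast ⟨b, hb, hxb⟩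
  have h1 : a' < x := lt_of_le_of_ne ha'.1.2 (fun h => hx (h ▸ ha'.1.1))
  have h2 : x < b' := lt_of_le_of_ne hb'.1.2 (fun h => hx (h ▸ hb'.1.1))
  have hab : a' < b' := h1.trans h2
  set s := (x - a') / (b' - a') with hs
  have hd : 0 < b' - a' := by linarith
  have hs0 : 0 < s := div_pos (by linarith) hd
  have hs1 : s < 1 := by rw [hs, div_lt_one hd]; linarith
  have hxs : x = (1 - s) * a' + s * b' := by
    rw [hs]; field_simp; ring
  have hae : ∀ᵐ y ∂μ, kern D x y ≤
      ENNReal.ofReal (1 - s) * kern D a' y + ENNReal.ofReal s * kern D b' y := by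
    have : ∀ᵐ y ∂μ, y ∈ S := hSμ
    filter_upwards [this] with y hy
    rw [hxs]
    refine kern_convex D hD a' b' s y hab hs0 hs1 ?_
    rcases le_total y x with h | h
    · exact Or.inl (ha'.2 ⟨hy, h⟩)
    · exact Or.inr (hb'.2 ⟨hy, h⟩)
  have hm : ∀ c : ℝ, Measurable (fun y => kern D c y) := fun c =>
    (measurable_kern D hD).comp (measurable_const.prodMk measurable_id)
  refine (lintegral_mono_ae hae).trans ?_
  rw [lintegral_add_left ((hm a').const_mul _), lintegral_const_mul _ (hm a'),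
    lintegral_const_mul _ (hm b')]
  calc _ ≤ ENNReal.ofReal (1 - s) * E + ENNReal.ofReal s * E := by
        gcongr
        · exact hSE a' ha'.1.1
        · exact hSE b' hb'.1.1
    _ = E := by
        rw [← add_mul, ← ENNReal.ofReal_add (by linarith) hs0.le]
        simp

lemma integrable_of_continuous (K : Set ℝ) (hK : IsCompact K) (μ : Measure ℝ) [IsFiniteMeasure μ]
    (hμ : μ Kᶜ = 0) (f : ℝ → ℝ) (hf : Continuous f) : Integrable f μ := by
  have h1 : IntegrableOn f K μ := hf.continuousOn.integrableOn_compact hK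
  have h2 : μ.restrict K = μ := Measure.restrict_eq_self_of_ae_mem hμ
  unfold IntegrableOn at h1
  rwa [h2] at h1

/-- Frostman's inequality everywhere in the complex plane. -/
theorem log_dist_ge (K : Set ℝ) (hKc : IsCompact K) (D : ℝ) (hD : 0 < D) (μ : Measure ℝ)
    [IsProbabilityMeasure μ] (hK : μ Kᶜ = 0) (hfin : en D μ μ < ⊤)
    (hmin : ∀ ν : Measure ℝ, IsProbabilityMeasure ν → ν Kᶜ = 0 → en D μ μ ≤ en D ν ν) (z : ℂ) :
    (∀ᵐ y ∂μ, ((y : ℝ) : ℂ) - z ≠ 0) ∧ Integrable (fun y : ℝ => Real.log ‖(y : ℂ) - z‖) μ ∧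
      Real.log D - (en D μ μ).toReal ≤ ∫ y : ℝ, Real.log ‖(y : ℂ) - z‖ ∂μ := by
  set E := en D μ μ with hE
  set S : Set ℝ := K ∩ {x | ∫⁻ y, kern D x y ∂μ ≤ E} with hS
  have hSc : IsCompact S := hKc.inter_right (isClosed_pot_le D hD μ E)
  have hSμ : μ Sᶜ = 0 := by
    rw [hS, compl_inter]
    refine measure_union_null hK ?_
    have := frostman_ae K D hD μ hK hfin hmin
    convert this using 2
    ext x
    simp [hE]
  have hSne : S.Nonempty := by
    by_contra h
    rw [not_nonempty_iff_eq_empty] at h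
    rw [h] at hSμ
    simp at hSμ
  obtain ⟨m, hm⟩ := hSc.exists_isLeast hSne
  obtain ⟨M, hM⟩ := hSc.exists_isGreatest hSne
  have hmM : m ≤ M := hm.2 hM.1
  set x := max m (min M z.re) with hx
  have hxE : ∫⁻ y, kern D x y ∂μ ≤ E :=
    pot_le_between D hD μ E S hSc hSμ (fun x hx => hx.2) x m M hm.1 hM.1 (le_max_left _ _)
      (max_le hmM (min_le_left _ _))
  have hxfin : ∫⁻ y, kern D x y ∂μ ≠ ⊤ := (hxE.trans_lt hfin).ne
  have hmeas : Measurable (fun y => kern D x y) :=
    (measurable_kern D hD).comp (measurable_const.prodMk measurable_id)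
  have hdist : ∀ y ∈ S, |x - y| ≤ ‖(y : ℂ) - z‖ := by
    intro y hy
    have h1 : |y - z.re| ≤ ‖(y : ℂ) - z‖ := by
      have := Complex.abs_re_le_norm ((y : ℂ) - z)
      simpa using this
    refine le_trans ?_ h1
    have h2 := hm.2 hy
    have h3 := hM.2 hy
    rw [hx]
    rcases le_total z.re m with h | h
    · rw [min_eq_right (h.trans hmM), max_eq_left h, abs_of_nonpos (by linarith),
        abs_of_nonneg (by linarith)]
      linarith
    · rcases le_total M z.re with h' | h'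
      · rw [min_eq_left h', max_eq_right hmM, abs_of_nonneg (by linarith),
          abs_of_nonpos (by linarith)]
        linarith
      · rw [min_eq_right h', max_eq_right h, abs_sub_comm]
  have hae1 : ∀ᵐ y ∂μ, kern D x y < ⊤ := ae_lt_top hmeas hxfin
  have hae2 : ∀ᵐ y ∂μ, y ∈ S := hSμ
  have hgint : Integrable (fun y => (kern D x y).toReal) μ :=
    integrable_toReal_of_lintegral_ne_top hmeas.aemeasurable hxfin
  have hgval : ∫ y, (kern D x y).toReal ∂μ ≤ E.toReal := by
    rw [integral_toReal hmeas.aemeasurable hae1]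
    exact ENNReal.toReal_mono hfin.ne hxE
  have hpos : ∀ᵐ y ∂μ, 0 < ‖((y : ℝ) : ℂ) - z‖ ∧
      Real.log D - (kern D x y).toReal ≤ Real.log ‖(y : ℂ) - z‖ := by
    filter_upwards [hae1, hae2] with y h1 h2
    have hxy : x ≠ y := by
      intro h
      simp [kern, h] at h1
    have h3 : 0 < |x - y| := abs_pos.mpr (sub_ne_zero.mpr hxy)
    have h4 := hdist y h2
    refine ⟨h3.trans_le h4, ?_⟩
    have h5 : Real.log (D / |x - y|) ≤ (kern D x y).toReal := by
      unfold kern
      rw [if_neg hxy, ENNReal.toReal_ofReal']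
      exact le_max_left _ _
    rw [Real.log_div hD.ne' h3.ne'] at h5
    have h6 := Real.log_le_log h3 h4
    linarith
  have hlow : Integrable (fun y => Real.log D - (kern D x y).toReal) μ :=
    (integrable_const _).sub hgint
  have hint : Integrable (fun y : ℝ => Real.log ‖(y : ℂ) - z‖) μ := by
    refine integrable_of_le_of_le (g₁ := fun y => Real.log D - (kern D x y).toReal)
      (g₂ := fun y : ℝ => ‖(y : ℂ) - z‖) ?_ ?_ ?_ hlow ?_
    · exact (Measurable.log (by fun_prop)).aestronglyMeasurable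
    · filter_upwards [hpos] with y hy using hy.2
    · exact Eventually.of_forall fun y => Real.log_le_self (norm_nonneg _)
    · exact integrable_of_continuous K hKc μ hK _ (by fun_prop)
  refine ⟨?_, hint, ?_⟩
  · filter_upwards [hpos] with y hy using norm_pos_iff.1 hy.1
  · have h1 : ∫ y, (Real.log D - (kern D x y).toReal) ∂μ ≤ ∫ y : ℝ, Real.log ‖(y : ℂ) - z‖ ∂μ :=
      integral_mono_ae hlow hint (by filter_upwards [hpos] with y hy using hy.2)
    rw [integral_sub (integrable_const _) hgint] at h1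
    simp only [integral_const, probReal_univ, smul_eq_mul, one_mul] at h1
    linarith

/-- the inequality for monic polynomials -/
theorem log_monic_ge (μ : Measure ℝ) [IsProbabilityMeasure μ] (L : ℝ)
    (h : ∀ z : ℂ, (∀ᵐ y ∂μ, ((y : ℝ) : ℂ) - z ≠ 0) ∧
      Integrable (fun y : ℝ => Real.log ‖(y : ℂ) - z‖) μ ∧
      L ≤ ∫ y : ℝ, Real.log ‖(y : ℂ) - z‖ ∂μ) (m : ℕ) :
    ∀ Q : Polynomial ℂ, Q.Monic → Q.natDegree = m →
      (∀ᵐ y ∂μ, Q.eval ((y : ℝ) : ℂ) ≠ 0) ∧
      Integrable (fun y : ℝ => Real.log ‖Q.eval (y : ℂ)‖) μ ∧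
      m * L ≤ ∫ y : ℝ, Real.log ‖Q.eval (y : ℂ)‖ ∂μ := by
  induction m with
  | zero =>
    intro Q hQ hd
    have : Q = 1 := Polynomial.eq_one_of_monic_natDegree_zero hQ hd
    subst this
    simp
  | succ m ih =>
    intro Q hQ hd
    have hdeg : Q.degree ≠ 0 := by
      intro h0
      have := Polynomial.natDegree_eq_of_degree_eq_some (n := 0) h0
      omega
    obtain ⟨z, hz⟩ := IsAlgClosed.exists_root Q hdeg
    obtain ⟨R, hR⟩ := Polynomial.dvd_iff_isRoot.2 hz
    have hXm : (Polynomial.X - Polynomial.C z).Monic := Polynomial.monic_X_sub_C z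
    have hRm : R.Monic := hXm.of_mul_monic_left (hR ▸ hQ)
    have hRd : R.natDegree = m := by
      have := hXm.natDegree_mul hRm
      rw [← hR, hd, Polynomial.natDegree_X_sub_C] at this
      omega
    obtain ⟨h1, h2, h3⟩ := ih R hRm hRd
    obtain ⟨g1, g2, g3⟩ := h z
    have hae : (fun y : ℝ => Real.log ‖Q.eval (y : ℂ)‖) =ᵐ[μ]
        fun y : ℝ => Real.log ‖(y : ℂ) - z‖ + Real.log ‖R.eval (y : ℂ)‖ := by
      filter_upwards [h1, g1] with y a b
      rw [hR, Polynomial.eval_mul, norm_mul, Polynomial.eval_sub, Polynomial.eval_X,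
        Polynomial.eval_C, Real.log_mul (norm_ne_zero_iff.2 b) (norm_ne_zero_iff.2 a)]
    refine ⟨?_, (g2.add h2).congr hae.symm, ?_⟩
    · filter_upwards [h1, g1] with y a b
      rw [hR, Polynomial.eval_mul, Polynomial.eval_sub, Polynomial.eval_X, Polynomial.eval_C]
      exact mul_ne_zero b a
    · rw [integral_congr_ae hae, integral_add g2 h2]
      push_cast
      linarith

end Pool.Agent.H290Z.Widom
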